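import Mathlib

set_option autoImplicit false

open Set Filter Topology

namespace Pool.Agent.H96Z.MB

section Group

variable {G : Type*} [Group G] [TopologicalSpace G] [IsTopologicalGroup G]

/-- a good decreasing base of open symmetric neighbourhoods of the identity -/
structure GoodBase (U : ℕ → Set G) : Prop where
  isOpen : ∀ n, IsOpen (U n)
  one_mem : ∀ n, (1 : G) ∈ U n
  inv_mem : ∀ n a, a ∈ U n → a⁻¹ ∈ U n
  mul3 : ∀ n a b c, a ∈ U (n + 1) → b ∈ U (n + 1) → c ∈ U (n + 1) → a * b * c ∈ U n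
  base : ∀ V ∈ 𝓝 (1 : G), ∃ n, U n ⊆ V

theorem exists_goodBase (G : Type*) [Group G] [TopologicalSpace G] [IsTopologicalGroup G]
    [FirstCountableTopology G] : ∃ U : ℕ → Set G, GoodBase U := by
  obtain ⟨u, hu, hmul⟩ := IsTopologicalGroup.exists_antitone_basis_nhds_one G
  refine ⟨fun n => interior (u (2 * n)) ∩ (interior (u (2 * n)))⁻¹, ?_, ?_, ?_, ?_, ?_⟩
  · intro n
    exact isOpen_interior.inter isOpen_interior.inv
  · intro n
    have : (1 : G) ∈ interior (u (2 * n)) := mem_interior_iff_mem_nhds.2 (hu.mem _)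
    exact ⟨this, by simpa using this⟩
  · intro n a ha
    exact ⟨by simpa using ha.2, by simpa using ha.1⟩
  · have key : ∀ n a b c, a ∈ interior (u (2 * (n + 1))) → b ∈ interior (u (2 * (n + 1))) →
        c ∈ interior (u (2 * (n + 1))) → a * b * c ∈ interior (u (2 * n)) := by
      intro n a b c ha hb hc
      have hab : a * b ∈ u (2 * n + 1) :=
        hmul (2 * n + 1) (Set.mul_mem_mul (interior_subset ha) (interior_subset hb))
      have hsub : (fun x => a * b * x) '' interior (u (2 * (n + 1))) ⊆ u (2 * n) := by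
        rintro _ ⟨x, hx, rfl⟩
        exact hmul (2 * n) (Set.mul_mem_mul hab (hu.antitone (by omega) (interior_subset hx)))
      have hop : IsOpen ((fun x => a * b * x) '' interior (u (2 * (n + 1)))) :=
        (isOpenMap_mul_left (a * b)) _ isOpen_interior
      exact interior_maximal hsub hop ⟨c, hc, rfl⟩
    intro n a b c ha hb hc
    refine ⟨key n a b c ha.1 hb.1 hc.1, ?_⟩
    have := key n c⁻¹ b⁻¹ a⁻¹ hc.2 hb.2 ha.2
    simpa [mul_assoc] using this
  · intro V hV
    obtain ⟨n, hn⟩ := hu.mem_iff.1 hV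
    exact ⟨n, fun x hx => hn (hu.antitone (by omega) (interior_subset hx.1))⟩

variable {U : ℕ → Set G}

omit [IsTopologicalGroup G] in
theorem GoodBase.mul2 (hU : GoodBase U) {n : ℕ} {a b : G} (ha : a ∈ U (n + 1))
    (hb : b ∈ U (n + 1)) : a * b ∈ U n := by
  simpa using hU.mul3 n a b 1 ha hb (hU.one_mem _)

omit [IsTopologicalGroup G] in
theorem GoodBase.anti (hU : GoodBase U) {n m : ℕ} (h : n ≤ m) : U m ⊆ U n := by
  induction m, h using Nat.le_induction with
  | base => exact Subset.rfl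
  | succ m _ ih =>
    intro a ha
    exact ih (by simpa using hU.mul2 ha (hU.one_mem _))

omit [IsTopologicalGroup G] in
theorem GoodBase.mem_nhds (hU : GoodBase U) (n : ℕ) : U n ∈ 𝓝 (1 : G) :=
  (hU.isOpen n).mem_nhds (hU.one_mem n)

/-- conjugation is continuous at the identity -/
theorem GoodBase.conj (hU : GoodBase U) (b : G) (k N : ℕ) :
    ∃ n, N ≤ n ∧ ∀ u ∈ U n, b * u * b⁻¹ ∈ U k := by
  have hc : Continuous fun u : G => b * u * b⁻¹ := by fun_prop
  have h1 : (fun u : G => b * u * b⁻¹) ⁻¹' U k ∈ 𝓝 (1 : G) := by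
    apply hc.continuousAt.preimage_mem_nhds
    simpa using hU.mem_nhds k
  obtain ⟨n, hn⟩ := hU.base _ h1
  exact ⟨max N n, le_max_left _ _, fun u hu => hn (hU.anti (le_max_right _ _) hu)⟩

variable {X : Type*}

/-- the values of `g` along the ultrafilter leave every left translate of `V` -/
def Esc (V : Set G) (𝒰 : Ultrafilter X) (g : X → G) : Prop :=
  ∀ h : G, ∀ᶠ x in (𝒰 : Filter X), h * g x ∉ V

/-- the elements outside the translates of `V` by the inverses of the elements of `F` -/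
def Av (F : Set G) (V : Set G) : Set G := {g | ∀ h ∈ F, h * g ∉ V}

omit [TopologicalSpace G] [IsTopologicalGroup G] in
theorem Esc.mono {V W : Set G} {𝒰 : Ultrafilter X} {g : X → G} (h : Esc V 𝒰 g) (hW : W ⊆ V) :
    Esc W 𝒰 g := fun a => (h a).mono fun _ hx hx' => hx (hW hx')

omit [TopologicalSpace G] [IsTopologicalGroup G] in
theorem Esc.mul_left {V : Set G} {𝒰 : Ultrafilter X} {g : X → G} (h : Esc V 𝒰 g) (a : G) :
    Esc V 𝒰 (fun x => a * g x) := fun b => (h (b * a)).mono fun _ hx => by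
  simpa [mul_assoc] using hx

omit [TopologicalSpace G] [IsTopologicalGroup G] in
theorem Esc.mul_right {V W : Set G} {𝒰 : Ultrafilter X} {g : X → G} (h : Esc V 𝒰 g) (b : G)
    (hW : ∀ u ∈ W, b * u * b⁻¹ ∈ V) : Esc W 𝒰 (fun x => g x * b) := fun a =>
  (h (b * a)).mono fun x hx hx' => hx (by simpa [mul_assoc] using hW _ hx')

omit [TopologicalSpace G] [IsTopologicalGroup G] in
theorem Esc.av {V : Set G} {𝒰 : Ultrafilter X} {g : X → G} (h : Esc V 𝒰 g) {F : Set G}
    (hF : F.Finite) : ∀ᶠ x in (𝒰 : Filter X), g x ∈ Av F V :=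
  (eventually_all_finite hF).2 fun a _ => h a

omit [IsTopologicalGroup G] in
/-- resolution of one letter while the candidates of the first letter are kept -/
theorem Esc.av2 (hU : GoodBase U) {n : ℕ} {𝒲 : Ultrafilter X} {q : X → G} (h : Esc (U n) 𝒲 q)
    (𝒰 : Ultrafilter X) (p : X → G) {F : Set G} (hF : F.Finite) :
    ∀ᶠ w in (𝒲 : Filter X), ∀ᶠ y in (𝒰 : Filter X), p y * q w ∈ Av F (U (n + 1)) := by
  have key : ∀ a : G, ∀ᶠ w in (𝒲 : Filter X), ∀ᶠ y in (𝒰 : Filter X),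
      a * (p y * q w) ∉ U (n + 1) := by
    intro a
    by_contra hcon
    have h1 : ∀ᶠ w in (𝒲 : Filter X), ∀ᶠ y in (𝒰 : Filter X), a * (p y * q w) ∈ U (n + 1) := by
      have h2 := Ultrafilter.eventually_not.2 hcon
      refine h2.mono fun w hw => ?_
      have h3 := Ultrafilter.eventually_not.2 hw
      simpa using h3
    obtain ⟨w₁, hw₁⟩ := h1.exists
    obtain ⟨w, hw, hw'⟩ := (h1.and (h (q w₁)⁻¹)).exists
    obtain ⟨y, hy, hy'⟩ := (hw₁.and hw).exists
    apply hw'
    have := hU.mul2 (hU.inv_mem _ _ hy) hy'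
    simpa [mul_assoc] using this
  have h1 : ∀ᶠ w in (𝒲 : Filter X), ∀ a ∈ F, ∀ᶠ y in (𝒰 : Filter X),
      a * (p y * q w) ∉ U (n + 1) := (eventually_all_finite hF).2 fun a _ => key a
  exact h1.mono fun w hw => (eventually_all_finite hF).2 hw

/-- an open set between two avoiding sets -/
def OAv (F : Set G) (U : ℕ → Set G) (n : ℕ) : Set G :=
  {g | ∃ a ∈ Av F (U n), a⁻¹ * g ∈ U (n + 1)}

theorem isOpen_OAv (hU : GoodBase U) (F : Set G) (n : ℕ) : IsOpen (OAv F U n) := by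
  have : OAv F U n = ⋃ a ∈ Av F (U n), (fun g => a⁻¹ * g) ⁻¹' U (n + 1) := by
    ext g; simp [OAv]
  rw [this]
  exact isOpen_biUnion fun a _ => (hU.isOpen _).preimage (by fun_prop)

omit [IsTopologicalGroup G] in
theorem Av_sub_OAv (hU : GoodBase U) (F : Set G) (n : ℕ) : Av F (U n) ⊆ OAv F U n :=
  fun g hg => ⟨g, hg, by simpa using hU.one_mem _⟩

omit [IsTopologicalGroup G] in
theorem OAv_mul (hU : GoodBase U) {F : Set G} {n : ℕ} {g b : G} (hg : g ∈ OAv F U n)
    (hb : b ∈ U (n + 1)) : g * b ∈ Av F (U (n + 1)) := by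
  obtain ⟨a, ha, ha'⟩ := hg
  intro h hh hmem
  apply ha h hh
  have := hU.mul3 n _ _ _ hmem (hU.inv_mem _ _ hb) (hU.inv_mem _ _ ha')
  simpa [mul_assoc] using this

end Group

section Fusion

variable {Y : Type*} [MetricSpace Y]

/-- `O'` is a small subset of `O` -/
def Small (ε : ℝ) (O' O : Set Y) : Prop :=
  closure O' ⊆ O ∧ ∀ a ∈ O', ∀ b ∈ O', dist a b ≤ ε

theorem Small.mono {ε : ℝ} {O'' O' O : Set Y} (h : Small ε O' O) (h' : O'' ⊆ O') :
    Small ε O'' O :=
  ⟨(closure_mono h').trans h.1, fun a ha b hb => h.2 a (h' ha) b (h' hb)⟩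

theorem Small.subset {ε : ℝ} {O' O : Set Y} (h : Small ε O' O) : O' ⊆ O :=
  subset_closure.trans h.1

theorem exists_small {O : Set Y} (hO : IsOpen O) {x : Y} (hx : x ∈ O) {ε : ℝ} (hε : 0 < ε) :
    ∃ O', IsOpen O' ∧ x ∈ O' ∧ Small ε O' O := by
  obtain ⟨δ, hδ, hδO⟩ := Metric.nhds_basis_closedBall.mem_iff.1 (hO.mem_nhds hx)
  refine ⟨Metric.ball x (min δ (ε / 2)), Metric.isOpen_ball,
    Metric.mem_ball_self (lt_min hδ (half_pos hε)), ?_, ?_⟩
  · exact Metric.closure_ball_subset_closedBall.trans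
      ((Metric.closedBall_subset_closedBall (min_le_left _ _)).trans hδO)
  · intro a ha b hb
    have h1 : dist a x < ε / 2 := lt_of_lt_of_le ha (min_le_right _ _)
    have h2 : dist b x < ε / 2 := lt_of_lt_of_le hb (min_le_right _ _)
    linarith [dist_triangle_right a b x]

theorem Small.prod {Z : Type*} [MetricSpace Z] {ε : ℝ} {A' A : Set Y} {B' B : Set Z}
    (h : Small ε A' A) (h' : Small ε B' B) : Small ε (A' ×ˢ B') (A ×ˢ B) := by
  refine ⟨?_, ?_⟩
  · rw [closure_prod_eq]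
    exact prod_mono h.1 h'.1
  · intro a ha b hb
    rw [Prod.dist_eq]
    exact max_le (h.2 _ ha.1 _ hb.1) (h'.2 _ ha.2 _ hb.2)

theorem fusion [CompleteSpace Y] (St : Set Y → ℕ → Prop) (A : ℕ → Y → Prop)
    (hne : ∀ O n, St O n → O.Nonempty) (h0 : ∃ O n, St O n)
    (step : ∀ O n, St O n → ∀ ε : ℝ, 0 < ε → ∃ O' n', St O' n' ∧ n < n' ∧ Small ε O' O ∧
      ∀ y ∈ O', ∀ j, n ≤ j → j < n' → A j y) :
    ∃ y N, ∀ j, N ≤ j → A j y := by
  choose! f g hf hg hs hA using step
  obtain ⟨O₀, n₀, h₀⟩ := h0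
  let s : ℕ → Set Y × ℕ := fun k => Nat.rec (O₀, n₀)
    (fun k p => (f p.1 p.2 (1 / ((k : ℝ) + 1)), g p.1 p.2 (1 / ((k : ℝ) + 1)))) k
  have hpos : ∀ k : ℕ, (0 : ℝ) < 1 / ((k : ℝ) + 1) := fun k => Nat.one_div_pos_of_nat
  have hSt : ∀ k, St (s k).1 (s k).2 := by
    intro k
    induction k with
    | zero => exact h₀
    | succ k ih => exact hf _ _ ih _ (hpos k)
  have hlt : ∀ k, (s k).2 < (s (k + 1)).2 := fun k => hg _ _ (hSt k) _ (hpos k)
  have hsm : ∀ k : ℕ, Small (1 / ((k : ℝ) + 1)) (s (k + 1)).1 (s k).1 :=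
    fun k => hs _ _ (hSt k) _ (hpos k)
  have hav : ∀ k, ∀ y ∈ (s (k + 1)).1, ∀ j, (s k).2 ≤ j → j < (s (k + 1)).2 → A j y :=
    fun k => hA _ _ (hSt k) _ (hpos k)
  have hanti : Antitone fun k => (s k).1 := antitone_nat_of_succ_le fun k => (hsm k).subset
  choose x hx using fun k => hne _ _ (hSt k)
  have hcau : CauchySeq fun k => x (k + 1) := by
    refine cauchySeq_of_le_tendsto_0' (fun k : ℕ => 1 / ((k : ℝ) + 1)) ?_
      tendsto_one_div_add_atTop_nhds_zero_nat
    intro n m hnm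
    exact (hsm n).2 _ (hx (n + 1)) _ (hanti (Nat.succ_le_succ hnm) (hx (m + 1)))
  obtain ⟨y, hy⟩ := cauchySeq_tendsto_of_complete hcau
  have hmem : ∀ k, y ∈ (s k).1 := by
    intro k
    apply (hsm k).1
    refine mem_closure_of_tendsto hy ?_
    filter_upwards [eventually_ge_atTop k] with m hm
    exact hanti (Nat.succ_le_succ hm) (hx (m + 1))
  refine ⟨y, n₀, fun j hj => ?_⟩
  have hmono : StrictMono fun k => (s k).2 := strictMono_nat_of_lt_succ hlt
  have hex : ∃ k, j < (s (k + 1)).2 := ⟨j, lt_of_lt_of_le (Nat.lt_succ_self j) (hmono.le_apply)⟩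
  classical
  have h1 := Nat.find_spec hex
  refine hav (Nat.find hex) y (hmem (Nat.find hex + 1)) j ?_ h1
  rcases h2 : Nat.find hex with _ | k
  · exact hj
  · have := Nat.find_min hex (m := k) (by omega)
    exact not_lt.1 this

end Fusion

end Pool.Agent.H96Z.MB
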