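import Mathlib

set_option autoImplicit false

open Set
open scoped Pointwise

namespace Pool.Agent.H96Z.MB

/-- The family of all (nontrivial) open covers of `X`: all members are open, the union is `X`,
and `X` itself is not a member. -/
def OpenCovers (X : Type*) [TopologicalSpace X] : Set (Set (Set X)) :=
  {𝒰 | (∀ V ∈ 𝒰, IsOpen V) ∧ ⋃₀ 𝒰 = univ ∧ univ ∉ 𝒰}

/-- The family of open gamma-covers of `X`: infinite open covers such that every point lies in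
all but finitely many members. -/
def GammaCovers (X : Type*) [TopologicalSpace X] : Set (Set (Set X)) :=
  {𝒰 | 𝒰 ∈ OpenCovers X ∧ 𝒰.Infinite ∧ ∀ x : X, {V | V ∈ 𝒰 ∧ x ∉ V}.Finite}

/-- The selection principle `S_1(A, B)`. -/
def SOne {X : Type*} (A B : Set (Set (Set X))) : Prop :=
  ∀ 𝒰 : ℕ → Set (Set X), (∀ n, 𝒰 n ∈ A) → ∃ V : ℕ → Set X, (∀ n, V n ∈ 𝒰 n) ∧ range V ∈ B

/-- The selection principle `S_fin(A, B)`. -/
def SFin {X : Type*} (A B : Set (Set (Set X))) : Prop :=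
  ∀ 𝒰 : ℕ → Set (Set X), (∀ n, 𝒰 n ∈ A) →
    ∃ 𝓕 : ℕ → Set (Set X), (∀ n, (𝓕 n).Finite ∧ 𝓕 n ⊆ 𝒰 n) ∧ (⋃ n, 𝓕 n) ∈ B

/-- The family of the covers `{g U : g ∈ G}`, where `U ≠ G` is an open neighbourhood of the
identity. -/
def ONbd (G : Type*) [Group G] [TopologicalSpace G] : Set (Set (Set G)) :=
  {𝒰 | ∃ U : Set G, IsOpen U ∧ (1 : G) ∈ U ∧ U ≠ univ ∧ 𝒰 = {V | ∃ g : G, V = g • U}}

/-- The family of the covers `{F U : F ⊆ G finite}`, where `U` is an open neighbourhood of the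
identity with `F U ≠ G` for every finite `F`. -/
def OmegaNbd (G : Type*) [Group G] [TopologicalSpace G] : Set (Set (Set G)) :=
  {𝒰 | ∃ U : Set G, IsOpen U ∧ (1 : G) ∈ U ∧ (∀ F : Set G, F.Finite → F * U ≠ univ) ∧
    𝒰 = {V | ∃ F : Set G, F.Finite ∧ V = F * U}}

end Pool.Agent.H96Z.MB
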