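import Mathlib
import Pool.Agent.H96Z.MB.Basic

set_option autoImplicit false

open Set Filter Topology

namespace Pool.Agent.H96Z.MB

variable {G : Type*} [Group G] [TopologicalSpace G] [IsTopologicalGroup G]
variable {X : Type*} [MetricSpace X]
variable {U : ℕ → Set G} {π : X → G}

/-- the ultrafilter escapes in the left uniformity -/
def LD (U : ℕ → Set G) (π : X → G) (𝒰 : Ultrafilter X) : Prop := ∃ n, Esc (U n) 𝒰 π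

/-- a pair of ultrafilters which allows the step to the left in the product of two inverses -/
def Good (U : ℕ → Set G) (π : X → G) (𝒲 𝒱 : Ultrafilter X) : Prop :=
  ∃ n, ∀ᶠ w in (𝒲 : Filter X), Esc (U n) 𝒱 (fun y => (π y)⁻¹ * (π w)⁻¹)

/-- the union of the first `m` finite sets -/
def Fs (F : ℕ → Set G) (m : ℕ) : Set G := ⋃ j ∈ Iio m, F j

omit [Group G] [TopologicalSpace G] [IsTopologicalGroup G] in
theorem Fs_finite {F : ℕ → Set G} (hF : ∀ n, (F n).Finite) (m : ℕ) : (Fs F m).Finite :=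
  (finite_Iio m).biUnion fun j _ => hF j

omit [IsTopologicalGroup G] in
theorem Av_Fs (hU : GoodBase U) {F : ℕ → Set G} {m n j : ℕ} {g : G} (hg : g ∈ Av (Fs F m) (U n))
    (h1 : n ≤ j) (h2 : j < m) : g ∈ Av (F j) (U j) := fun h hh hmem =>
  hg h (mem_biUnion (show j ∈ Iio m from h2) hh) (hU.anti h1 hmem)

/-- the property which drives the product of three letters -/
def PropB (U : ℕ → Set G) (π : X → G) (O₂ O₃ : Set X) : Prop :=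
  ∃ 𝒲 : Ultrafilter X, O₂ ∈ 𝒲 ∧ LD U π 𝒲 ∧ ∃ b ∈ O₃, ∀ O, IsOpen O → b ∈ O →
    ∃ 𝒱 : Ultrafilter X, O ∈ 𝒱 ∧ LD U π 𝒱 ∧ ¬ Good U π 𝒲 𝒱

theorem caseB [CompleteSpace X] (hU : GoodBase U) (hπ : Continuous π)
    (hX : ∀ O : Set X, IsOpen O → O.Nonempty → ∃ 𝒰 : Ultrafilter X, O ∈ 𝒰 ∧ LD U π 𝒰)
    {C : Set X} (hCo : IsOpen C) (hCne : C.Nonempty)
    (hB : ∀ O₂ O₃ : Set X, IsOpen O₂ → IsOpen O₃ → O₂.Nonempty → O₃.Nonempty → O₂ ⊆ C → O₃ ⊆ C →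
      PropB U π O₂ O₃)
    {F : ℕ → Set G} (hF : ∀ n, (F n).Finite) :
    ∃ g : G, ∃ N, ∀ j, N ≤ j → g ∈ Av (F j) (U j) := by
  let St : Set (X × X × X) → ℕ → Prop := fun O l => ∃ (O₁ O₂ O₃ : Set X) (n : ℕ)
    (𝒰 : Ultrafilter X) (σ : G), O = O₁ ×ˢ O₂ ×ˢ O₃ ∧ l = n + 1 ∧ IsOpen O₁ ∧ IsOpen O₂ ∧
    IsOpen O₃ ∧ O₂.Nonempty ∧ O₃.Nonempty ∧ O₂ ⊆ C ∧ O₃ ⊆ C ∧ O₁ ∈ 𝒰 ∧
    Esc (U n) 𝒰 (fun y => π y * σ) ∧ ∀ w ∈ O₂, ∀ v ∈ O₃, σ⁻¹ * (π w * π v) ∈ U (n + 1)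
  -- small neighbourhoods of a pair of points
  have hnb : ∀ (w v : X) (n : ℕ), ∃ A B : Set X, IsOpen A ∧ IsOpen B ∧ w ∈ A ∧ v ∈ B ∧
      ∀ w' ∈ A, ∀ v' ∈ B, (π w * π v)⁻¹ * (π w' * π v') ∈ U n := by
    intro w v n
    refine ⟨{w' | (π w * π v)⁻¹ * (π w' * π v) ∈ U (n + 1)}, {v' | (π v)⁻¹ * π v' ∈ U (n + 1)},
      (hU.isOpen _).preimage (by fun_prop), (hU.isOpen _).preimage (by fun_prop), ?_, ?_, ?_⟩
    · simpa using hU.one_mem _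
    · simpa using hU.one_mem _
    · intro w' hw' v' hv'
      have := hU.mul2 hw' hv'
      simpa [mul_assoc] using this
  obtain ⟨y, N, hy⟩ := fusion St (fun j y => π y.1 * (π y.2.1 * π y.2.2) ∈ Av (F j) (U j)) (by
      rintro O l ⟨O₁, O₂, O₃, n, 𝒰, σ, rfl, -, -, -, -, h2, h3, -, -, h1, -⟩
      exact (Ultrafilter.nonempty_of_mem h1).prod (h2.prod h3)) (by
      obtain ⟨c, hc⟩ := hCne
      obtain ⟨𝒰, hm, k, hk⟩ := hX C hCo ⟨c, hc⟩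
      obtain ⟨n, -, hn⟩ := hU.conj (π c * π c) k 0
      obtain ⟨A, B, hA, hB', hcA, hcB, hAB⟩ := hnb c c (n + 1)
      exact ⟨_, _, C, A ∩ C, B ∩ C, n, 𝒰, π c * π c, rfl, rfl, hCo, hA.inter hCo, hB'.inter hCo,
        ⟨c, hcA, hc⟩, ⟨c, hcB, hc⟩, inter_subset_right, inter_subset_right, hm,
        hk.mul_right _ hn, fun w hw v hv => hAB w hw.1 v hv.1⟩) (by
      rintro O l ⟨O₁, O₂, O₃, n, 𝒰, σ, rfl, rfl, o1, o2, o3, ne2, ne3, s2, s3, m1, esc, hσ⟩ ε hε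
      -- step 1
      obtain ⟨𝒲, m2, ⟨kw, hkw⟩, b, hb, hacc⟩ := hB O₂ O₃ o2 o3 ne2 ne3 s2 s3
      obtain ⟨n₁, hn₁, hc₁⟩ := hU.conj (π b) kw (n + 1)
      have escw : Esc (U n₁) 𝒲 (fun w => π w * π b) := hkw.mul_right _ hc₁
      obtain ⟨y₀, hy₀, hy₀'⟩ := ((esc.av (Fs_finite hF (n₁ + 2))).and m1).exists
      obtain ⟨S₁, oS₁, mS₁, sm₁⟩ := exists_small o1 hy₀' hε
      set P₁ : Set X := S₁ ∩ {y | π y * σ ∈ OAv (Fs F (n₁ + 2)) U n} with hP₁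
      have oP₁ : IsOpen P₁ := oS₁.inter ((isOpen_OAv hU _ _).preimage (by fun_prop))
      have neP₁ : P₁.Nonempty := ⟨y₀, mS₁, Av_sub_OAv hU _ _ hy₀⟩
      set P₃ : Set X := O₃ ∩ {v | (π b)⁻¹ * π v ∈ U (n₁ + 3)} with hP₃
      have oP₃ : IsOpen P₃ := o3.inter ((hU.isOpen _).preimage (by fun_prop))
      have bP₃ : b ∈ P₃ := ⟨hb, by simpa using hU.one_mem _⟩
      -- step 2
      obtain ⟨𝒱, m3, ⟨kv, hkv⟩, hbad⟩ := hacc P₃ oP₃ bP₃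
      obtain ⟨𝒰', m1', k, hk⟩ := hX P₁ oP₁ neP₁
      set n₂ := max kv (n₁ + 1) with hn₂
      have hn₂' : n₁ + 1 ≤ n₂ := le_max_right _ _
      have escv : Esc (U n₂) 𝒱 π := hkv.mono (hU.anti (le_max_left _ _))
      have hbad' : ∀ᶠ w in (𝒲 : Filter X), ∃ h : G, ∀ᶠ v in (𝒱 : Filter X),
          h * ((π v)⁻¹ * (π w)⁻¹) ∈ U (k + 1) := by
        have h1 : ¬ ∀ᶠ w in (𝒲 : Filter X), Esc (U (k + 1)) 𝒱 (fun y => (π y)⁻¹ * (π w)⁻¹) :=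
          fun h => hbad ⟨k + 1, h⟩
        refine (Ultrafilter.eventually_not.2 h1).mono fun w hw => ?_
        obtain ⟨h, hh⟩ := not_forall.1 hw
        exact ⟨h, by simpa using Ultrafilter.eventually_not.2 hh⟩
      obtain ⟨w₀, ⟨hw₀, h, hh⟩, hw₀'⟩ :=
        (((escw.av2 hU 𝒰' π (Fs_finite hF (n₂ + 2))).and hbad').and m2).exists
      obtain ⟨S₂, oS₂, mS₂, sm₂⟩ := exists_small o2 hw₀' hε
      set Q₁ : Set X := P₁ ∩ {y | π y * (π w₀ * π b) ∈ OAv (Fs F (n₂ + 2)) U (n₁ + 1)} with hQ₁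
      have oQ₁ : IsOpen Q₁ := oP₁.inter ((isOpen_OAv hU _ _).preimage (by fun_prop))
      have mQ₁ : Q₁ ∈ 𝒰' := inter_mem m1' (hw₀.mono fun y hy => Av_sub_OAv hU _ _ hy)
      set P₂ : Set X := S₂ ∩ {w | (π w₀ * π b)⁻¹ * (π w * π b) ∈ U (n₁ + 3)} with hP₂
      have oP₂ : IsOpen P₂ := oS₂.inter ((hU.isOpen _).preimage (by fun_prop))
      have wP₂ : w₀ ∈ P₂ := ⟨mS₂, by simpa using hU.one_mem _⟩
      -- step 3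
      obtain ⟨n₃, hn₃, hc₃⟩ := hU.conj h (k + 1) (n₂ + 1)
      obtain ⟨v₀, ⟨hv₀, hv₀h⟩, hv₀'⟩ :=
        ((((escv.mul_left (π w₀)).av2 hU 𝒰' π (Fs_finite hF (n₃ + 1))).and hh).and m3).exists
      obtain ⟨S₃, oS₃, mS₃, sm₃⟩ := exists_small o3 hv₀'.1 hε
      have esc' : Esc (U n₃) 𝒰' (fun y => π y * (π w₀ * π v₀)) := by
        refine hk.mul_right _ fun u hu => ?_
        have := hU.mul3 k _ _ _ (hU.inv_mem _ _ hv₀h) (hc₃ u hu) hv₀h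
        simpa [mul_assoc] using this
      obtain ⟨A, B, oA, oB, wA, vB, hAB⟩ := hnb w₀ v₀ (n₃ + 1)
      set R₁ : Set X := Q₁ ∩ {y | π y * (π w₀ * π v₀) ∈ OAv (Fs F (n₃ + 1)) U (n₂ + 1)} with hR₁
      have oR₁ : IsOpen R₁ := oQ₁.inter ((isOpen_OAv hU _ _).preimage (by fun_prop))
      have mR₁ : R₁ ∈ 𝒰' := inter_mem mQ₁ (hv₀.mono fun y hy => Av_sub_OAv hU _ _ hy)
      refine ⟨R₁ ×ˢ (P₂ ∩ A) ×ˢ (S₃ ∩ P₃ ∩ B), n₃ + 1, ⟨R₁, P₂ ∩ A, S₃ ∩ P₃ ∩ B, n₃, 𝒰',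
        π w₀ * π v₀, rfl, rfl, oR₁, oP₂.inter oA, (oS₃.inter oP₃).inter oB, ⟨w₀, wP₂, wA⟩,
        ⟨v₀, ⟨mS₃, hv₀'⟩, vB⟩, fun w hw => s2 (sm₂.subset hw.1.1),
        fun v hv => s3 hv.1.2.1, mR₁, esc', fun w hw v hv => hAB w hw.2 v hv.2⟩, by omega, ?_, ?_⟩
      · exact (sm₁.mono fun y hy => hy.1.1.1).prod
          ((sm₂.mono fun w hw => hw.1.1).prod (sm₃.mono fun v hv => hv.1.1))
      · rintro ⟨y, w, v⟩ ⟨hy, hw, hv⟩ j hj1 hj2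
        dsimp only at hy hw hv ⊢
        by_cases c1 : j < n₁ + 2
        · refine Av_Fs hU ?_ hj1 c1
          have := OAv_mul hU hy.1.1.2 (hσ w (sm₂.subset hw.1.1) v hv.1.2.1)
          simpa [mul_assoc] using this
        by_cases c2 : j < n₂ + 2
        · refine Av_Fs hU ?_ (not_lt.1 c1) c2
          have := OAv_mul hU hy.1.2 (hU.mul2 hw.1.2 hv.1.2.2)
          simpa [mul_assoc] using this
        · refine Av_Fs hU ?_ (not_lt.1 c2) hj2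
          have := OAv_mul hU hy.2 (hU.anti (by omega) (hAB w hw.2 v hv.2))
          simpa [mul_assoc] using this)
  exact ⟨_, N, hy⟩

theorem caseA [CompleteSpace X] (hU : GoodBase U) (hπ : Continuous π)
    (hX : ∀ O : Set X, IsOpen O → O.Nonempty → ∃ 𝒰 : Ultrafilter X, O ∈ 𝒰 ∧ LD U π 𝒰)
    {R T : Set X} (hRo : IsOpen R) (hTo : IsOpen T) (hRne : R.Nonempty) (hTne : T.Nonempty)
    (hR : ∀ 𝒲 : Ultrafilter X, R ∈ 𝒲 → LD U π 𝒲 → LD U (fun x => (π x)⁻¹) 𝒲)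
    (hT : ∀ 𝒲 : Ultrafilter X, T ∈ 𝒲 → LD U π 𝒲 → LD U (fun x => (π x)⁻¹) 𝒲)
    (hA : ¬ PropB U π R T)
    {F : ℕ → Set G} (hF : ∀ n, (F n).Finite) :
    ∃ g : G, ∃ N, ∀ j, N ≤ j → g ∈ Av (F j) (U j) := by
  have hA' : ∀ 𝒲 : Ultrafilter X, R ∈ 𝒲 → LD U π 𝒲 → ∀ b ∈ T, ∃ O, IsOpen O ∧ b ∈ O ∧
      ∀ 𝒱 : Ultrafilter X, O ∈ 𝒱 → LD U π 𝒱 → Good U π 𝒲 𝒱 := by
    intro 𝒲 h1 h2 b hb
    by_contra hcon
    apply hA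
    refine ⟨𝒲, h1, h2, b, hb, fun O hO hbO => ?_⟩
    by_contra hcon2
    apply hcon
    refine ⟨O, hO, hbO, fun 𝒱 h3 h4 => ?_⟩
    by_contra h5
    exact hcon2 ⟨𝒱, h3, h4, h5⟩
  let St : Set (X × X) → ℕ → Prop := fun O l => ∃ (O₁ O₂ : Set X) (n : ℕ)
    (𝒰 : Ultrafilter X) (σ : G), O = O₁ ×ˢ O₂ ∧ l = n + 1 ∧ IsOpen O₁ ∧ IsOpen O₂ ∧
    O₂.Nonempty ∧ O₁ ⊆ T ∧ O₂ ⊆ R ∧ O₁ ∈ 𝒰 ∧
    Esc (U n) 𝒰 (fun y => (π y)⁻¹ * σ) ∧ ∀ w ∈ O₂, σ⁻¹ * (π w)⁻¹ ∈ U (n + 1)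
  obtain ⟨y, N, hy⟩ := fusion St (fun j y => (π y.1)⁻¹ * (π y.2)⁻¹ ∈ Av (F j) (U j)) (by
      rintro O l ⟨O₁, O₂, n, 𝒰, σ, rfl, -, -, -, h2, -, -, h1, -⟩
      exact (Ultrafilter.nonempty_of_mem h1).prod h2) (by
      obtain ⟨c, hc⟩ := hRne
      obtain ⟨𝒰, hm, hl⟩ := hX T hTo hTne
      obtain ⟨k, hk⟩ := hT 𝒰 hm hl
      obtain ⟨n, -, hn⟩ := hU.conj (π c)⁻¹ k 0
      exact ⟨_, _, T, R ∩ {w | ((π c)⁻¹)⁻¹ * (π w)⁻¹ ∈ U (n + 1)}, n, 𝒰, (π c)⁻¹, rfl, rfl, hTo,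
        hRo.inter ((hU.isOpen _).preimage (by fun_prop)), ⟨c, hc, by simpa using hU.one_mem _⟩,
        Subset.rfl, inter_subset_left, hm, hk.mul_right _ hn, fun w hw => hw.2⟩) (by
      rintro O l ⟨O₁, O₂, n, 𝒰, σ, rfl, rfl, o1, o2, ne2, s1, s2, m1, esc, hσ⟩ ε hε
      -- step 1
      obtain ⟨𝒲, m2, hl⟩ := hX O₂ o2 ne2
      obtain ⟨kw, hkw⟩ := hR 𝒲 (mem_of_superset m2 s2) hl
      set n₁ := max kw (n + 1) with hn₁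
      have hn₁' : n + 1 ≤ n₁ := le_max_right _ _
      have escw : Esc (U n₁) 𝒲 (fun w => (π w)⁻¹) := hkw.mono (hU.anti (le_max_left _ _))
      obtain ⟨y₀, hy₀, hy₀'⟩ := ((esc.av (Fs_finite hF (n₁ + 2))).and m1).exists
      obtain ⟨S₁, oS₁, mS₁, sm₁⟩ := exists_small o1 hy₀' hε
      obtain ⟨D, oD, mD, hD⟩ := hA' 𝒲 (mem_of_superset m2 s2) hl y₀ (s1 hy₀')
      set P₁ : Set X := S₁ ∩ D ∩ {y | (π y)⁻¹ * σ ∈ OAv (Fs F (n₁ + 2)) U n} with hP₁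
      have oP₁ : IsOpen P₁ := (oS₁.inter oD).inter ((isOpen_OAv hU _ _).preimage (by fun_prop))
      have neP₁ : P₁.Nonempty := ⟨y₀, ⟨mS₁, mD⟩, Av_sub_OAv hU _ _ hy₀⟩
      -- step 2
      obtain ⟨𝒰', m1', hl'⟩ := hX P₁ oP₁ neP₁
      obtain ⟨k, hk⟩ := hD 𝒰' (mem_of_superset m1' fun y hy => hy.1.2) hl'
      set n₂ := max k (n₁ + 1) with hn₂
      have hn₂' : n₁ + 1 ≤ n₂ := le_max_right _ _
      obtain ⟨w₀, ⟨hw₀, hw₀e⟩, hw₀'⟩ :=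
        (((escw.av2 hU 𝒰' (fun y => (π y)⁻¹) (Fs_finite hF (n₂ + 1))).and hk).and m2).exists
      obtain ⟨S₂, oS₂, mS₂, sm₂⟩ := exists_small o2 hw₀' hε
      set Q₁ : Set X := P₁ ∩ {y | (π y)⁻¹ * (π w₀)⁻¹ ∈ OAv (Fs F (n₂ + 1)) U (n₁ + 1)} with hQ₁
      have oQ₁ : IsOpen Q₁ := oP₁.inter ((isOpen_OAv hU _ _).preimage (by fun_prop))
      have mQ₁ : Q₁ ∈ 𝒰' := inter_mem m1' (hw₀.mono fun y hy => Av_sub_OAv hU _ _ hy)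
      set P₂ : Set X := S₂ ∩ {w | ((π w₀)⁻¹)⁻¹ * (π w)⁻¹ ∈ U (n₂ + 1)} with hP₂
      have oP₂ : IsOpen P₂ := oS₂.inter ((hU.isOpen _).preimage (by fun_prop))
      have wP₂ : w₀ ∈ P₂ := ⟨mS₂, by simpa using hU.one_mem _⟩
      refine ⟨Q₁ ×ˢ P₂, n₂ + 1, ⟨Q₁, P₂, n₂, 𝒰', (π w₀)⁻¹, rfl, rfl, oQ₁, oP₂, ⟨w₀, wP₂⟩,
        fun y hy => s1 (sm₁.subset hy.1.1.1), fun w hw => s2 (sm₂.subset hw.1), mQ₁,
        hw₀e.mono (hU.anti (le_max_left _ _)), fun w hw => hw.2⟩, by omega, ?_, ?_⟩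
      · exact (sm₁.mono fun y hy => hy.1.1.1).prod (sm₂.mono fun w hw => hw.1)
      · rintro ⟨y, w⟩ ⟨hy, hw⟩ j hj1 hj2
        dsimp only at hy hw ⊢
        by_cases c1 : j < n₁ + 2
        · refine Av_Fs hU ?_ hj1 c1
          have := OAv_mul hU hy.1.2 (hσ w (sm₂.subset hw.1))
          simpa [mul_assoc] using this
        · refine Av_Fs hU ?_ (not_lt.1 c1) hj2
          have := OAv_mul hU hy.2 (hU.anti (by omega) hw.2)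
          simpa [mul_assoc] using this)
  exact ⟨_, N, hy⟩

/-- the core statement: if no nonempty open set has a left bounded image, then for all finite sets
`F n` some element of the group is outside almost all sets `(F n)⁻¹ * U n` -/
theorem core [CompleteSpace X] [Nonempty X] (hU : GoodBase U) (hπ : Continuous π)
    (hX : ∀ O : Set X, IsOpen O → O.Nonempty → ∃ 𝒰 : Ultrafilter X, O ∈ 𝒰 ∧ LD U π 𝒰)
    {F : ℕ → Set G} (hF : ∀ n, (F n).Finite) :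
    ∃ g : G, ∃ N, ∀ j, N ≤ j → g ∈ Av (F j) (U j) := by
  by_cases h : ∃ C : Set X, IsOpen C ∧ C.Nonempty ∧ ∀ O₂ O₃ : Set X, IsOpen O₂ → IsOpen O₃ →
      O₂.Nonempty → O₃.Nonempty → O₂ ⊆ C → O₃ ⊆ C → PropB U π O₂ O₃
  · obtain ⟨C, h1, h2, h3⟩ := h
    exact caseB hU hπ hX h1 h2 h3 hF
  have h' : ∀ C : Set X, IsOpen C → C.Nonempty → ∃ O₂ O₃ : Set X, IsOpen O₂ ∧ IsOpen O₃ ∧
      O₂.Nonempty ∧ O₃.Nonempty ∧ O₂ ⊆ C ∧ O₃ ⊆ C ∧ ¬ PropB U π O₂ O₃ := by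
    intro C h1 h2
    by_contra hcon
    apply h
    refine ⟨C, h1, h2, fun O₂ O₃ a b c d e f => ?_⟩
    by_contra hn
    exact hcon ⟨O₂, O₃, a, b, c, d, e, f, hn⟩
  obtain ⟨O₂, O₃, o2, -, ne2, ⟨b, hb⟩, -, -, hn⟩ := h' univ isOpen_univ univ_nonempty
  obtain ⟨𝒲, m2, hl⟩ := hX O₂ o2 ne2
  have h1 : ∃ O, IsOpen O ∧ b ∈ O ∧ ∀ 𝒱 : Ultrafilter X, O ∈ 𝒱 → LD U π 𝒱 → Good U π 𝒲 𝒱 := by
    by_contra hcon
    apply hn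
    refine ⟨𝒲, m2, hl, b, hb, fun O hO hbO => ?_⟩
    by_contra hcon2
    apply hcon
    refine ⟨O, hO, hbO, fun 𝒱 h3 h4 => ?_⟩
    by_contra h5
    exact hcon2 ⟨𝒱, h3, h4, h5⟩
  obtain ⟨O, oO, bO, hO⟩ := h1
  have h2 : ∀ 𝒱 : Ultrafilter X, O ∈ 𝒱 → LD U π 𝒱 → LD U (fun x => (π x)⁻¹) 𝒱 := by
    intro 𝒱 h3 h4
    obtain ⟨k, hk⟩ := hO 𝒱 h3 h4
    obtain ⟨w, hw⟩ := hk.exists
    obtain ⟨n, -, hc⟩ := hU.conj (π w) k 0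
    refine ⟨n, ?_⟩
    have := hw.mul_right (W := U n) (π w) hc
    simpa using this
  obtain ⟨R, T, oR, oT, neR, neT, sR, sT, hn'⟩ := h' O oO ⟨b, bO⟩
  exact caseA hU hπ hX oR oT neR neT (fun 𝒱 h3 => h2 𝒱 (mem_of_superset h3 sR))
    (fun 𝒱 h3 => h2 𝒱 (mem_of_superset h3 sT)) hn' hF

end Pool.Agent.H96Z.MB
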