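import Mathlib
import Pool.Agent.H96Z.MB.Words
import Pool.Agent.H96Z.MB.Defs

set_option autoImplicit false

open Set Filter Topology
open scoped Pointwise

namespace Pool.Agent.H96Z.MB

variable {G : Type*} [Group G] [TopologicalSpace G] [IsTopologicalGroup G]

/-- left bounded sets -/
def Bdd (U : ℕ → Set G) (A : Set G) : Prop :=
  ∀ n, ∃ F : Set G, F.Finite ∧ ∀ g ∈ A, ∃ h ∈ F, h * g ∈ U n

/-- countable unions of left bounded sets -/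
def SBdd (U : ℕ → Set G) (A : Set G) : Prop :=
  ∃ 𝓑 : Set (Set G), 𝓑.Countable ∧ (∀ B ∈ 𝓑, Bdd U B) ∧ A ⊆ ⋃₀ 𝓑

omit [TopologicalSpace G] [IsTopologicalGroup G] in
theorem exists_LD {X : Type*} {U : ℕ → Set G} {π : X → G} {O : Set X} (h : ¬ Bdd U (π '' O)) :
    ∃ 𝒰 : Ultrafilter X, O ∈ 𝒰 ∧ ∃ n, Esc (U n) 𝒰 π := by
  obtain ⟨n, hn⟩ := not_forall.1 h
  have hne : (𝓟 O ⊓ ⨅ h : G, 𝓟 {x | h * π x ∉ U n}).NeBot := by
    rw [Filter.inf_neBot_iff]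
    intro s hs t ht
    obtain ⟨I, hI, V, hV, rfl⟩ := (Filter.mem_iInf).1 ht
    by_contra hcon
    apply hn
    refine ⟨I, hI, ?_⟩
    rintro _ ⟨x, hx, rfl⟩
    by_contra hcon2
    apply hcon
    refine ⟨x, hs hx, mem_iInter.2 fun i => hV i ?_⟩
    intro hmem
    exact hcon2 ⟨i, i.2, hmem⟩
  obtain ⟨𝒰, h𝒰⟩ := Ultrafilter.exists_le (𝓟 O ⊓ ⨅ h : G, 𝓟 {x | h * π x ∉ U n})
  refine ⟨𝒰, h𝒰 (mem_inf_of_left (mem_principal_self _)), n, fun a => ?_⟩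
  exact h𝒰 (mem_inf_of_right (mem_iInf_of_mem a (mem_principal_self _)))

theorem escape {Z : Type*} [MetricSpace Z] [CompleteSpace Z] [SecondCountableTopology Z]
    {U : ℕ → Set G} (hU : GoodBase U) {f : Z → G} (hf : Continuous f)
    (hs : Function.Surjective f) (hG : ¬ SBdd U univ) {F : ℕ → Set G} (hF : ∀ n, (F n).Finite) :
    ∃ g : G, ∃ N, ∀ j, N ≤ j → g ∈ Av (F j) (U j) := by
  set S : Set (Set Z) := {O | IsOpen O ∧ SBdd U (f '' O)} with hS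
  obtain ⟨T, hTc, hTS, hTU⟩ := TopologicalSpace.isOpen_sUnion_countable S fun O hO => hO.1
  have hW : SBdd U (f '' ⋃₀ S) := by
    choose! 𝓑 h1 h2 h3 using fun O (hO : O ∈ T) => (hTS hO).2
    refine ⟨⋃ O ∈ T, 𝓑 O, hTc.biUnion h1, ?_, ?_⟩
    · intro B hB
      obtain ⟨O, hO, hB⟩ := mem_iUnion₂.1 hB
      exact h2 O hO B hB
    · rintro _ ⟨x, hx, rfl⟩
      rw [← hTU] at hx
      obtain ⟨O, hO, hxO⟩ := hx
      obtain ⟨B, hB, hxB⟩ := h3 O hO ⟨x, hxO, rfl⟩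
      exact ⟨B, mem_iUnion₂.2 ⟨O, hO, hB⟩, hxB⟩
  have hcl : IsClosed (⋃₀ S)ᶜ := (isOpen_sUnion fun O hO => hO.1).isClosed_compl
  have : CompleteSpace ((⋃₀ S)ᶜ : Set Z) := hcl.completeSpace_coe
  have : Nonempty ((⋃₀ S)ᶜ : Set Z) := by
    by_contra hcon
    apply hG
    obtain ⟨𝓑, h1, h2, h3⟩ := hW
    refine ⟨𝓑, h1, h2, fun g _ => ?_⟩
    obtain ⟨x, rfl⟩ := hs g
    apply h3
    refine ⟨x, ?_, rfl⟩
    by_contra hx
    exact hcon ⟨⟨x, hx⟩⟩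
  refine core (X := ((⋃₀ S)ᶜ : Set Z)) (π := fun x => f x) hU (hf.comp continuous_subtype_val)
    ?_ hF
  rintro O hO ⟨x, hx⟩
  apply exists_LD
  intro hb
  obtain ⟨O', hO', rfl⟩ := isOpen_induced_iff.1 hO
  apply x.2
  refine ⟨O', ⟨hO', ?_⟩, hx⟩
  obtain ⟨𝓑, h1, h2, h3⟩ := hW
  refine ⟨insert ((fun x : ((⋃₀ S)ᶜ : Set Z) => f x) '' (Subtype.val ⁻¹' O')) 𝓑, h1.insert _, ?_, ?_⟩
  · intro B hB
    rcases hB with rfl | hB
    · exact hb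
    · exact h2 B hB
  · rintro _ ⟨z, hz, rfl⟩
    by_cases hzS : z ∈ ⋃₀ S
    · obtain ⟨B, hB, hzB⟩ := h3 ⟨z, hzS, rfl⟩
      exact ⟨B, Or.inr hB, hzB⟩
    · exact ⟨_, Or.inl rfl, ⟨⟨z, hzS⟩, hz, rfl⟩⟩

omit [IsTopologicalGroup G] in
theorem menger_seq (hM : SFin (ONbd G) (OpenCovers G)) (V : ℕ → Set G) (ho : ∀ n, IsOpen (V n))
    (h1 : ∀ n, (1 : G) ∈ V n) :
    ∃ F : ℕ → Set G, (∀ n, (F n).Finite) ∧ ∀ g : G, ∃ n, ∃ h ∈ F n, h * g ∈ V n := by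
  by_cases hu : ∃ n, V n = univ
  · obtain ⟨n, hn⟩ := hu
    exact ⟨fun _ => {1}, fun _ => finite_singleton _, fun g => ⟨n, 1, rfl, by simp [hn]⟩⟩
  obtain ⟨𝓕, h2, -, h3, -⟩ := hM (fun n => {W | ∃ g : G, W = g • V n})
    fun n => ⟨V n, ho n, h1 n, fun h => hu ⟨n, h⟩, rfl⟩
  choose! c hc using fun n W (hW : W ∈ 𝓕 n) => (h2 n).2 hW
  refine ⟨fun n => (fun W => (c n W)⁻¹) '' 𝓕 n, fun n => (h2 n).1.image _, fun g => ?_⟩
  have : g ∈ ⋃₀ ⋃ n, 𝓕 n := by rw [h3]; trivial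
  obtain ⟨W, hW, hgW⟩ := this
  obtain ⟨n, hn⟩ := mem_iUnion.1 hW
  refine ⟨n, _, ⟨W, hn, rfl⟩, ?_⟩
  rw [hc n W hn, mem_smul_set_iff_inv_smul_mem] at hgW
  exact hgW

omit [IsTopologicalGroup G] in
theorem menger_often (hM : SFin (ONbd G) (OpenCovers G)) {U : ℕ → Set G} (hU : GoodBase U) :
    ∃ F : ℕ → Set G, (∀ n, (F n).Finite) ∧ ∀ (g : G) (N : ℕ), ∃ j, N ≤ j ∧ g ∉ Av (F j) (U j) := by
  choose F hF hg using fun N : ℕ => menger_seq hM (fun i => U (N + i)) (fun i => hU.isOpen _)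
    (fun i => hU.one_mem _)
  refine ⟨fun j => ⋃ N ∈ Iic j, F N (j - N), fun j => (finite_Iic j).biUnion fun N _ => hF N _,
    fun g N => ?_⟩
  obtain ⟨i, h, hh, hmem⟩ := hg N g
  refine ⟨N + i, Nat.le_add_right _ _, fun hav => hav h ?_ hmem⟩
  refine mem_biUnion (show N ∈ Iic (N + i) from Nat.le_add_right _ _) ?_
  simpa using hh

theorem hurewicz_of_sbdd {U : ℕ → Set G} (hU : GoodBase U) (h : SBdd U univ) :
    SOne (OmegaNbd G) (GammaCovers G) := by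
  intro 𝒰 h𝒰
  choose V hVo hV1 hVne hVeq using h𝒰
  obtain ⟨𝓑, hc, hb, hsub⟩ := h
  have hne : 𝓑.Nonempty := by
    obtain ⟨B, hB, -⟩ := hsub (mem_univ 1)
    exact ⟨B, hB⟩
  obtain ⟨B, hB⟩ := hc.exists_eq_range hne
  have hB' : ∀ i, Bdd U (B i) := fun i => hb _ (hB ▸ mem_range_self i)
  choose k hk using fun n => hU.base (V n) ((hVo n).mem_nhds (hV1 n))
  choose E hE hEg using hB'
  set F : ℕ → Set G := fun n => ⋃ i ∈ Iic n, (E i (k n))⁻¹ with hFdef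
  have hF : ∀ n, (F n).Finite := fun n => (finite_Iic n).biUnion fun i _ => (hE i _).inv
  have hev : ∀ g : G, ∃ i, ∀ n, i ≤ n → g ∈ F n * V n := by
    intro g
    obtain ⟨_, hB₀, hg⟩ := hsub (mem_univ g)
    rw [hB] at hB₀
    obtain ⟨i, rfl⟩ := hB₀
    refine ⟨i, fun n hn => ?_⟩
    obtain ⟨h, hh, hmem⟩ := hEg i (k n) g hg
    refine ⟨h⁻¹, mem_biUnion (show i ∈ Iic n from hn) (by simpa using hh), h * g, hk n hmem, ?_⟩
    simp
  refine ⟨fun n => F n * V n, fun n => ?_, ⟨?_, ?_, ?_⟩, ?_, ?_⟩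
  · rw [hVeq n]
    exact ⟨F n, hF n, rfl⟩
  · rintro _ ⟨n, rfl⟩
    exact (hVo n).mul_left
  · refine eq_univ_of_forall fun g => ?_
    obtain ⟨i, hi⟩ := hev g
    exact ⟨_, ⟨i, rfl⟩, hi i le_rfl⟩
  · rintro ⟨n, hn⟩
    exact hVne n (F n) (hF n) hn
  · intro hfin
    have : Finite (range fun n => F n * V n) := hfin
    obtain ⟨W, hW⟩ := Finite.exists_infinite_fiber
      (fun n : ℕ => (⟨F n * V n, mem_range_self n⟩ : range fun n => F n * V n))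
    have hW' : Set.Infinite ((fun n : ℕ =>
      (⟨F n * V n, mem_range_self n⟩ : range fun n => F n * V n)) ⁻¹' {W}) :=
      Set.infinite_coe_iff.1 hW
    obtain ⟨n₀, hn₀⟩ := hW'.nonempty
    apply hVne n₀ (F n₀) (hF n₀)
    refine eq_univ_of_forall fun g => ?_
    obtain ⟨i, hi⟩ := hev g
    obtain ⟨n, hn, hin⟩ := hW'.exists_gt i
    have h1 : F n * V n = F n₀ * V n₀ := by
      have h2 := congrArg Subtype.val (hn.trans (Eq.symm hn₀))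
      exact h2
    rw [← h1]
    exact hi n hin.le
  · intro g
    obtain ⟨i, hi⟩ := hev g
    refine ((finite_Iio i).image fun n => F n * V n).subset ?_
    rintro _ ⟨⟨n, rfl⟩, hn⟩
    refine ⟨n, ?_, rfl⟩
    by_contra hlt
    exact hn (hi n (not_lt.1 hlt))

theorem main [FirstCountableTopology G] (f : (ℕ → ℕ) → G) (hf : Continuous f)
    (hs : Function.Surjective f) (hM : SFin (ONbd G) (OpenCovers G)) :
    SOne (OmegaNbd G) (GammaCovers G) := by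
  obtain ⟨U, hU⟩ := exists_goodBase G
  apply hurewicz_of_sbdd hU
  by_contra hG
  obtain ⟨F, hF, hoften⟩ := menger_often hM hU
  let _ := TopologicalSpace.upgradeIsCompletelyMetrizable (ℕ → ℕ)
  obtain ⟨g, N, hg⟩ := escape (Z := ℕ → ℕ) hU hf hs hG hF
  obtain ⟨j, hj, hj'⟩ := hoften g N
  exact hj' (hg j hj)

end Pool.Agent.H96Z.MB
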